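import Pool.Agent.helper70.FI.SpecQ1

/-!
# Project fi (MP_baa4d7_al), block Q1, module QEU
-/

set_option autoImplicit false

namespace Pool.Agent.FI

open Pool.Agent.helper58.DC Pool.Agent.DI Pool.Agent.GR Pool.Agent.OB

theorem QEU_ev {G : Type} [Group G] [Fintype G] (χ i : G → ℂ) (g : G) :
    ev χ i g = ∑ x, i x * χ (g * x) := finsum_eq_sum_of_fintype _

theorem QEU_cv {G : Type} [Group G] [Fintype G] (a b : G → ℂ) (g : G) :
    cv a b g = ∑ x, a x * b (x⁻¹ * g) := finsum_eq_sum_of_fintype _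

theorem QEU_swap {G : Type} [Group G] [Fintype G] (H' : Subgroup G) (χ i e : G → ℂ)
    (he : ∀ w, w ∉ H' → e w = 0) (hχ : ∀ g, ∀ h ∈ H', χ (h * g * h⁻¹) = χ g) (x : G) :
    ev χ (cv i e) x = ∑ w, e w * ev χ i (w * x) := by
  rw [QEU_ev]
  simp only [QEU_cv, QEU_ev, Finset.sum_mul, Finset.mul_sum]
  rw [Finset.sum_comm, Finset.sum_comm (f := fun w z => e w * (i z * χ (w * x * z)))]
  apply Finset.sum_congr rfl
  intro z _
  rw [← Equiv.sum_comp (Equiv.mulLeft z) (fun g => i z * e (z⁻¹ * g) * χ (x * g))]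
  apply Finset.sum_congr rfl
  intro w _
  have h1 : z⁻¹ * (z * w) = w := by group
  simp only [Equiv.coe_mulLeft]
  rw [h1]
  by_cases hw : w ∈ H'
  · have h2 := hχ (x * (z * w)) w hw
    have h3 : w * (x * (z * w)) * w⁻¹ = w * x * z := by group
    rw [h3] at h2
    rw [h2]
    ring
  · rw [he w hw]
    ring

theorem QEU (hQEV : QEV_stmt) (hQEK : QEK_stmt) (hB2 : B2_stmt) : QEU_stmt := by
  intro G _ _ H H' hH i hi hii hinv U hU hie χ' hχ'
  cases nonempty_fintype G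
  obtain ⟨m, hm⟩ := hQEV G H H' hH i hi hii hinv χ' hχ'
  refine ⟨m, fun x hx => ?_⟩
  have h1 := hQEK G H' U hU (fun ψ => (m ψ : ℂ)) (ev χ' i) hm x hx
  rw [← h1, finsum_eq_sum_of_fintype]
  conv_lhs => rw [← hie]
  apply QEU_swap H'
  · intro w hw
    unfold eS
    have h2 : ∑ᶠ ψ ∈ U, ψ 1 * ψ w⁻¹ = 0 := by
      apply finsum_mem_eq_zero_of_forall_eq_zero
      intro ψ hψ
      have h3 := ((hB2 G H').2 ψ (hU hψ)).2.2.2.1 w⁻¹ (fun h => hw (by simpa using H'.inv_mem h))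
      rw [h3, mul_zero]
    rw [h2, zero_div]
  · intro g h hh
    exact ((hB2 G H).2 χ' hχ').2.1 g h (hH hh)

end Pool.Agent.FI
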