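import Pool.Agent.helper83.FI.SpecR

/-!
# Project fi (MP_baa4d7_al), block R, module COF
-/

set_option autoImplicit false

namespace Pool.Agent.FI

open Pool.Agent.helper58.DC Pool.Agent.DI Pool.Agent.GR Pool.Agent.OB

theorem COF_cv {G : Type} [Group G] [Fintype G] (a b : G → ℂ) (g : G) :
    cv a b g = ∑ x, a x * b (x⁻¹ * g) := finsum_eq_sum_of_fintype _

theorem COF_co {G : Type} [Group G] [Fintype G] (i j : G → ℂ) (z w : G) :
    co i j z w = ∑ x, i x * j (w⁻¹ * (x⁻¹ * z)) := finsum_eq_sum_of_fintype _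

theorem COF_mul {G : Type} [Group G] [Finite G] (i j i' j' : G → ℂ) (z w : G) :
    ∑ᶠ u, co i j z u * co i' j' u w = co (cv i i') (cv j' j) z w := by
  cases nonempty_fintype G
  rw [finsum_eq_sum_of_fintype, COF_co]
  simp only [COF_cv, COF_co, Finset.sum_mul_sum]
  rw [Finset.sum_comm]
  rw [Finset.sum_comm (f := fun x a => ∑ b, i a * i' (a⁻¹ * x) * (j' b * j (b⁻¹ * (w⁻¹ * (x⁻¹ * z)))))]
  apply Finset.sum_congr rfl
  intro a _
  rw [Finset.sum_comm]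
  rw [← Equiv.sum_comp (Equiv.mulLeft a)
    (fun x => ∑ b, i a * i' (a⁻¹ * x) * (j' b * j (b⁻¹ * (w⁻¹ * (x⁻¹ * z)))))]
  apply Finset.sum_congr rfl
  intro y _
  rw [← Equiv.sum_comp (Equiv.mulLeft (w⁻¹ * y⁻¹))
    (fun b => i a * i' (a⁻¹ * (Equiv.mulLeft a) y) *
      (j' b * j (b⁻¹ * (w⁻¹ * (((Equiv.mulLeft a) y)⁻¹ * z)))))]
  apply Finset.sum_congr rfl
  intro u _
  have h1 : a⁻¹ * (a * y) = y := by group
  have h2 : (w⁻¹ * y⁻¹ * u)⁻¹ * (w⁻¹ * ((a * y)⁻¹ * z)) = u⁻¹ * (a⁻¹ * z) := by group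
  have h3 : w⁻¹ * y⁻¹ * u = w⁻¹ * (y⁻¹ * u) := mul_assoc _ _ _
  simp only [Equiv.coe_mulLeft]
  rw [h1, h2, h3]
  ring

theorem COF_supp {G : Type} [Group G] [Finite G] (H : Subgroup G) (i j : G → ℂ)
    (hi : ∀ x, x ∉ H → i x = 0) (hj : ∀ x, x ∉ H → j x = 0) (z w : G)
    (h : z ∈ H ∧ w ∉ H ∨ z ∉ H ∧ w ∈ H) : co i j z w = 0 := by
  cases nonempty_fintype G
  rw [COF_co]
  apply Finset.sum_eq_zero
  intro x _
  by_cases hx : x ∈ H
  · have h2 : w⁻¹ * (x⁻¹ * z) ∉ H := by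
      intro h3
      rcases h with ⟨hz, hw⟩ | ⟨hz, hw⟩
      · apply hw
        have h4 : x⁻¹ * z ∈ H := H.mul_mem (H.inv_mem hx) hz
        have h5 := H.mul_mem h4 (H.inv_mem h3)
        have h6 : x⁻¹ * z * (w⁻¹ * (x⁻¹ * z))⁻¹ = w := by group
        rwa [h6] at h5
      · apply hz
        have h5 := H.mul_mem hx (H.mul_mem hw h3)
        have h6 : x * (w * (w⁻¹ * (x⁻¹ * z))) = z := by group
        rwa [h6] at h5
    rw [hj _ h2, mul_zero]
  · rw [hi x hx, zero_mul]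

theorem COF_inv {G : Type} [Group G] [Finite G] (i j : G → ℂ) (a b : G)
    (hi : ∀ x, i (a * x * a⁻¹) = i x) (hj : ∀ x, j (b * x * b⁻¹) = j x) (z w : G) :
    co i j (a * z * b⁻¹) (a * w * b⁻¹) = co i j z w := by
  cases nonempty_fintype G
  rw [COF_co, COF_co, ← Equiv.sum_comp (MulAut.conj a).toEquiv]
  apply Finset.sum_congr rfl
  intro x _
  have h1 : (MulAut.conj a).toEquiv x = a * x * a⁻¹ := rfl
  have h2 : (a * w * b⁻¹)⁻¹ * ((a * x * a⁻¹)⁻¹ * (a * z * b⁻¹)) =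
      b * (w⁻¹ * (x⁻¹ * z)) * b⁻¹ := by group
  rw [h1, hi, h2, hj]

theorem COF : COF_stmt := by
  intro G _ _
  refine ⟨COF_mul, COF_supp, COF_inv, ?_, ?_, ?_⟩
  · intro p M h i j hi hj z w
    exact IntAt.finsum h (fun x => IntAt.mul h (hi x) (hj _))
  · intro i j z w
    cases nonempty_fintype G
    rw [COF_co, COF_cv]
    apply Finset.sum_congr rfl
    intro x _
    have h1 : w⁻¹ * (x⁻¹ * z) = w⁻¹ * (x⁻¹ * (z * w⁻¹)) * w := by group
    rw [h1]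
  · intro j z w
    cases nonempty_fintype G
    rw [COF_co]
    exact Finset.sum_eq_zero (fun x _ => by rw [Pi.zero_apply, zero_mul])

end Pool.Agent.FI
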